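import Pool.Agent.TH116.GD.Basic

/-!
# The motivic Galois group of the thrice-punctured line and GT: asymptotic dimensions are enough
-/

open Module

namespace Pool.Agent.Results.MP_446dfa_ag.AsymptoticDimension

open Pool.Agent.TH116.GD

variable {A B : Type*} [CommRing A] [Algebra ℚ A] [CommRing B] [Algebra ℚ B]

/-- `A` is the coordinate ring of the prounipotent part of GT, with its parts `F n` of weight `n`, and
`φ` is the restriction to the prounipotent part of the motivic Galois group, whose coordinate ring has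
dimension `d n` in weight `n + 3`. -/
structure IsGTModel (F : ℕ → Submodule ℚ A) (φ : A →ₐ[ℚ] B) (d : ℕ → ℕ) : Prop where
  model : IsModel F
  zagier : IsZagier d
  finrank_image : ∀ n, finrank ℚ ((F (n + 3)).map φ.toLinearMap) = d n

/-- The following are equivalent: (1) `φ` is injective on each `F n`; (2) for all large `n`,
`dim F (n + 3) = d n`; (3) `dim F (n + 3) = d n` for arbitrarily large `n`;
(4) `dim F (n + 3) ≤ (1 + ε) d n` for arbitrarily large `n`, for each `ε > 0`; (5) for each `w` there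
is `n ≥ w` with `dim F (n + 3) < d n + d (n - w)`. -/
theorem result {F : ℕ → Submodule ℚ A} {φ : A →ₐ[ℚ] B} {d : ℕ → ℕ}
    (h : IsGTModel F φ d) :
    List.TFAE [
      ∀ (n : ℕ) (x : A), x ∈ F n → φ x = 0 → x = 0,
      ∀ n : ℕ, finrank ℚ (F (n + 3)) = d n,
      ∀ N : ℕ, ∃ n : ℕ, N ≤ n ∧ finrank ℚ (F (n + 3)) = d n,
      ∀ ε : ℝ, 0 < ε → ∀ N : ℕ, ∃ n : ℕ, N ≤ n ∧ (finrank ℚ (F (n + 3)) : ℝ) ≤ (1 + ε) * d n,
      ∀ w : ℕ, ∃ n : ℕ, w ≤ n ∧ finrank ℚ (F (n + 3)) < d n + d (n - w)] := by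
  tfae_have 1 → 2 := by
    intro h1 n
    rw [← h.finrank_image n, finrank_map_of_injOn φ (h1 (n + 3))]
  tfae_have 2 → 3 := fun h2 N => ⟨N, le_rfl, h2 N⟩
  tfae_have 3 → 4 := by
    intro h2 ε hε N
    obtain ⟨n, hn, he⟩ := h2 N
    refine ⟨n, hn, ?_⟩
    rw [he]
    have : (0 : ℝ) ≤ d n := Nat.cast_nonneg _
    nlinarith
  tfae_have 4 → 5 := by
    intro h3 w
    obtain ⟨n, hn, hle⟩ := h3 (1 / (2 * 2 ^ w)) (by positivity) (w + 2)
    refine ⟨n, by omega, ?_⟩
    obtain ⟨k, rfl⟩ : ∃ k, n = k + 2 + w := ⟨n - w - 2, by omega⟩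
    have h4 := h.zagier.ratio w k
    have h5 := (h.zagier.props k).1
    have e : k + 2 + w - w = k + 2 := by omega
    rw [e]
    have h4' : (d (k + 2 + w) : ℝ) ≤ 2 ^ w * d (k + 2) := by exact_mod_cast h4
    have h5' : (1 : ℝ) ≤ d (k + 2) := by exact_mod_cast h5
    have h6 : 1 / (2 * 2 ^ w) * (d (k + 2 + w) : ℝ) ≤ d (k + 2) / 2 := by
      rw [div_mul_eq_mul_div, one_mul, div_le_div_iff₀ (by positivity) (by norm_num)]
      linarith
    have h7 : (finrank ℚ (F (k + 2 + w + 3)) : ℝ) < d (k + 2 + w) + d (k + 2) := by linarith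
    exact_mod_cast h7
  tfae_have 5 → 1 := by
    intro h4 w r hr hφ
    by_contra hr0
    obtain ⟨n, hn, hlt⟩ := h4 w
    have h5 := gap h.model φ hr hr0 hφ (n := n + 3) (by omega)
    rw [h.finrank_image n] at h5
    have e : n + 3 - w = n - w + 3 := by omega
    have h6 : d (n - w) ≤ finrank ℚ (F (n + 3 - w)) := by
      rw [e, ← h.finrank_image (n - w)]
      have := h.model.finite (n - w + 3)
      exact Submodule.finrank_map_le _ _
    omega
  tfae_finish

end Pool.Agent.Results.MP_446dfa_ag.AsymptoticDimension
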